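import Mathlib
import Pool.Agent.Helper35.PI2.St
import Pool.Agent.Helper67.PI.M_I1

/-!
Module IA of project PI2 (MP_b2fa09_gt): covariance of the covectors `scv`, `vcv` under
reparametrisation.
-/

namespace Helper80.PI2

open Helper35.PI Helper35.PI2
open scoped ContDiff Manifold Topology ENNReal BigOperators Matrix
open MeasureTheory Set Filter

variable {n N : ℕ}

theorem ee_inner (a : Fin n) (v : EE n) : (inner ℝ (ee a) v : ℝ) = v a := by
  simp [ee, EuclideanSpace.inner_single_left]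

/-- smoothness of the geometric quantities of a single immersion -/
theorem smooth1 (hSM : StSM) (f : EE n → EE N) (x : EE n) (hf : ContDiffAt ℝ ∞ f x) (hLI : LI f x) :
    (∀ᶠ y in 𝓝 x, LI f y) ∧ ContDiffAt ℝ ∞ (mcv f) x ∧ ContDiffAt ℝ ∞ (nsq f) x := by
  have hF : ContDiffAt ℝ ∞ (f ∘ (Prod.fst : EE n × ℝ → EE n)) (x, 0) :=
    ContDiffAt.comp (x, (0 : ℝ)) hf contDiffAt_fst
  obtain ⟨h1, -, -, -, -, -, -, h2, h3, -⟩ := hSM n N (f ∘ (Prod.fst : EE n × ℝ → EE n)) (x, 0) hF hLI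
  have e0 : ∀ z : EE n × ℝ, (fun y => (f ∘ (Prod.fst : EE n × ℝ → EE n)) (y, z.2)) = f :=
    fun z => rfl
  simp only [e0] at h1 h2 h3
  have hi : ContDiffAt ℝ ∞ (fun y : EE n => (y, (0 : ℝ))) x :=
    contDiffAt_id.prodMk contDiffAt_const
  refine ⟨?_, ?_, ?_⟩
  · have h4 : Tendsto (fun y : EE n => (y, (0 : ℝ))) (𝓝 x) (𝓝 (x, (0 : ℝ))) :=
      hi.continuousAt
    filter_upwards [h4.eventually h1] with y hy
    exact hy.1
  · have h5 := h2.comp x hi
    exact h5
  · have h5 := h3.comp x hi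
    exact h5

/-- derivative of a composition, in coordinates -/
theorem chain {V : Type} [NormedAddCommGroup V] [NormedSpace ℝ V] (G : EE n → V) (K : EE n → V)
    (φ : EE n → EE n) (x : EE n) (hG : DifferentiableAt ℝ G (φ x)) (hφ : DifferentiableAt ℝ φ x)
    (hK : K =ᶠ[𝓝 x] (fun y => G (φ y))) (k : Fin n) :
    fderiv ℝ K x (ee k) = ∑ a, (fderiv ℝ φ x (ee k)) a • fderiv ℝ G (φ x) (ee a) := by
  rw [hK.fderiv_eq, fderiv_fun_comp x hG hφ]
  show fderiv ℝ G (φ x) (fderiv ℝ φ x (ee k)) = _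
  conv_lhs => rw [Helper67.PI.expand (fderiv ℝ φ x (ee k))]
  rw [map_sum]
  refine Finset.sum_congr rfl fun a _ => ?_
  rw [map_smul]

theorem hIA (hI1 : StI1) (_hFR : StFR) (hNR : StNR) (hSM : StSM) : StIA := by
  intro n N f h φ x hf hφ hh hLI μ k
  have hf2 : ContDiffAt ℝ 2 f (φ x) := hf.of_le (by decide)
  have hφ2 : ContDiffAt ℝ 2 φ x := hφ.of_le (by decide)
  have hφd : DifferentiableAt ℝ φ x := hφ2.differentiableAt (by norm_num)
  have hhs : ContDiffAt ℝ ∞ h x :=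
    (ContDiffAt.comp x (g := f) hf hφ).congr_of_eventuallyEq hh
  set y := φ x with hy
  set J : Matrix (Fin n) (Fin n) ℝ := Matrix.of fun i a => (fderiv ℝ φ x (ee i)) a with hJdef
  have hJ : ∀ i, dv1 h x i = ∑ a, J i a • dv1 f y a := by
    intro i
    rw [Helper67.PI.first f h φ x hf2 hφ2 hh i, Helper67.PI.fderiv_expand]
    rfl
  obtain ⟨hLIf, hspan, hdet⟩ := Helper67.PI.spans f h x y J hJ hLI
  have hnrm := Helper67.PI.nrm_eq hNR f h x y hLIf hLI hspan
  have hinv := Helper67.PI.gram_inv f h x y J hJ hdet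
  obtain ⟨-, f2, -, -, f5, f6, -, -⟩ := hNR n N f y hLIf
  have hsff : ∀ i j, sff h x i j = ∑ a, ∑ b, (J i a * J j b) • sff f y a b := by
    intro i j
    let T : EE N →ₗ[ℝ] EE N :=
      { toFun := nrm f y, map_add' := f5, map_smul' := f6 }
    have hT : ∀ v, T v = nrm f y v := fun v => rfl
    unfold sff
    rw [hnrm, Helper67.PI.second f h φ x hf2 hφ2 hh i j, f5, f2 _ (Helper67.PI.fderiv_mem f y _),
      add_zero, Helper67.PI.second_expand f y hf2, ← hT, map_sum]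
    refine Finset.sum_congr rfl fun a _ => ?_
    rw [map_sum]
    refine Finset.sum_congr rfl fun b _ => ?_
    rw [map_smul]
    rfl
  -- invariance at all points near `x`
  obtain ⟨hLIev, -, -⟩ := smooth1 hSM h x hhs hLI
  obtain ⟨-, hmf, hnf⟩ := smooth1 hSM f y hf hLIf
  have hev : ∀ᶠ z in 𝓝 x, mcv h z = mcv f (φ z) ∧ nsq h z = nsq f (φ z) := by
    have e1 : ∀ᶠ z in 𝓝 x, h =ᶠ[𝓝 z] (fun y => f (φ y)) := hh.eventuallyEq_nhds
    have e2 : ∀ᶠ z in 𝓝 x, ContDiffAt ℝ 2 f (φ z) :=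
      hφ.continuousAt.eventually (hf2.eventually (by decide))
    have e3 : ∀ᶠ z in 𝓝 x, ContDiffAt ℝ 2 φ z := hφ2.eventually (by decide)
    filter_upwards [e1, e2, e3, hLIev] with z h1 h2 h3 h4
    obtain ⟨-, g1, g2, -, -⟩ := hI1 n N f h φ z h2 h3 h1 h4
    exact ⟨g1, g2⟩
  have hdm : DifferentiableAt ℝ (mcv f) y := hmf.differentiableAt (by decide)
  have hdn : DifferentiableAt ℝ (nsq f) y := hnf.differentiableAt (by decide)
  have hM : ∀ m, fderiv ℝ (mcv h) x (ee m) = ∑ c, J m c • fderiv ℝ (mcv f) y (ee c) := by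
    intro m
    exact chain (mcv f) (mcv h) φ x hdm hφd (hev.mono fun z hz => hz.1) m
  have hscv : scv h x k = ∑ a, J k a * scv f y a := by
    have hX : ∀ l m, (inner ℝ (sff h x k l) (fderiv ℝ (mcv h) x (ee m)) : ℝ)
        = ∑ r, ∑ s, (J l r * J m s) •
          (∑ a, J k a * (inner ℝ (sff f y a r) (fderiv ℝ (mcv f) y (ee s)) : ℝ)) := by
      intro l m
      rw [hsff, hM, sum_inner]
      have e1 : ∀ a, (inner ℝ (∑ b, (J k a * J l b) • sff f y a b)
          (∑ c, J m c • fderiv ℝ (mcv f) y (ee c)) : ℝ)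
          = ∑ r, ∑ s, (J l r * J m s) * (J k a * (inner ℝ (sff f y a r) (fderiv ℝ (mcv f) y (ee s)) : ℝ)) := by
        intro a
        rw [sum_inner]
        refine Finset.sum_congr rfl fun r _ => ?_
        rw [inner_sum]
        refine Finset.sum_congr rfl fun s _ => ?_
        rw [inner_smul_left, inner_smul_right]
        simp only [conj_trivial]
        ring
      simp_rw [e1, smul_eq_mul, Finset.mul_sum]
      rw [Finset.sum_comm]
      refine Finset.sum_congr rfl fun r _ => ?_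
      rw [Finset.sum_comm]
    have e2 : scv h x k = ∑ l, ∑ m, (gram h x)⁻¹ l m •
        ∑ r, ∑ s, (J l r * J m s) •
          (∑ a, J k a * (inner ℝ (sff f y a r) (fderiv ℝ (mcv f) y (ee s)) : ℝ)) := by
      unfold scv
      refine Finset.sum_congr rfl fun l _ => Finset.sum_congr rfl fun m _ => ?_
      rw [hX, smul_eq_mul]
    rw [e2, Helper67.PI.contr, hinv]
    unfold scv
    simp_rw [smul_eq_mul, Finset.mul_sum]
    have e3 : ∀ r : Fin n, ∑ s, ∑ a, (gram f y)⁻¹ r s *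
        (J k a * (inner ℝ (sff f y a r) (fderiv ℝ (mcv f) y (ee s)) : ℝ))
        = ∑ a, ∑ s, J k a * ((gram f y)⁻¹ r s *
        (inner ℝ (sff f y a r) (fderiv ℝ (mcv f) y (ee s)) : ℝ)) := by
      intro r
      rw [Finset.sum_comm]
      refine Finset.sum_congr rfl fun a _ => Finset.sum_congr rfl fun s _ => ?_
      ring
    simp_rw [e3]
    rw [Finset.sum_comm]
  refine ⟨?_, ?_⟩
  · rw [hscv]
    refine Finset.sum_congr rfl fun a _ => ?_
    rw [ee_inner]
    rfl
  · have hΦ : (fun z => 2 * (1 + μ) * nsq h z - ‖mcv h z‖ ^ 2) =ᶠ[𝓝 x]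
        (fun z => (fun w => 2 * (1 + μ) * nsq f w - ‖mcv f w‖ ^ 2) (φ z)) := by
      filter_upwards [hev] with z hz
      rw [hz.1, hz.2]
    have hd : DifferentiableAt ℝ (fun w => 2 * (1 + μ) * nsq f w - ‖mcv f w‖ ^ 2) y :=
      (hdn.const_mul _).sub (hdm.norm_sq ℝ)
    have h1 := chain (fun w => 2 * (1 + μ) * nsq f w - ‖mcv f w‖ ^ 2) _ φ x hd hφd hΦ k
    unfold vcv
    rw [h1, hscv]
    have h2 : ∀ a, (inner ℝ (ee a) (fderiv ℝ φ x (ee k)) : ℝ) = J k a := fun a => ee_inner a _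
    simp_rw [h2, mul_sub]
    rw [Finset.sum_sub_distrib, Finset.mul_sum]
    congr 1
    refine Finset.sum_congr rfl fun a _ => ?_
    ring

end Helper80.PI2
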